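import Mathlib
import Pool.Agent.Helper23_LAP.Stmts
import Pool.Agent.Helper23_LAP.Basic

/-!
# LAP, module CN5: the events for the numbers of classes at a site
-/

set_option autoImplicit false

namespace Pool.Agent.LAP.H39

open scoped Classical

variable {U Λ : Type}

/-- Flipping the coordinate `u`. -/
noncomputable def flipC (u : U) (ω : U → Bool) : U → Bool := Function.update ω u (!ω u)

theorem flipC_same (u : U) (ω : U → Bool) : flipC u ω u = !ω u := by simp [flipC]

theorem flipC_inv (u : U) : Function.Involutive (flipC u) := by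
  intro ω
  funext v
  by_cases h : v = u
  · subst h
    rw [flipC_same, flipC_same, Bool.not_not]
  · simp [flipC, Function.update_of_ne h]

theorem ex_coin [Fintype U] (u : U) (s : Bool) :
    ex (fun ω : U → Bool => if xor (ω u) s = true then (1 : ℝ) else 0) = 1 / 2 := by
  unfold ex
  have h1 : ∑ ω : U → Bool, (if xor (ω u) s = true then (1 : ℝ) else 0) =
      ∑ ω : U → Bool, (if xor (flipC u ω u) s = true then (1 : ℝ) else 0) :=
    (Equiv.sum_comp (flipC_inv u).toPerm
      (fun ω : U → Bool => if xor (ω u) s = true then (1 : ℝ) else 0)).symm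
  have h2 : ∀ ω : U → Bool, (if xor (flipC u ω u) s = true then (1 : ℝ) else 0) =
      1 - (if xor (ω u) s = true then (1 : ℝ) else 0) := by
    intro ω
    rw [flipC_same]
    cases ω u <;> cases s <;> simp
  rw [Finset.sum_congr rfl (fun ω _ => h2 ω), Finset.sum_sub_distrib] at h1
  have h3 : ∑ ω : U → Bool, (1 : ℝ) = (Fintype.card (U → Bool) : ℝ) := by
    rw [Finset.sum_const, Finset.card_univ, nsmul_eq_mul, mul_one]
  rw [h3] at h1
  have h4 : (0 : ℝ) < (Fintype.card (U → Bool) : ℝ) := by
    have : 0 < Fintype.card (U → Bool) := Fintype.card_pos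
    exact_mod_cast this
  rw [div_eq_iff h4.ne']
  linarith

/-- The indicator of the event that the (only) link of `sel c` is cut. -/
noncomputable def fC {q : ℕ} (rep : Fin q → Λ → Λ) (sg : Fin q → Λ → Bool)
    (sel : Fin q → Finset Λ) (c : Fin q) (ω : Fin q × Λ → Bool) : ℝ :=
  if ∃ l ∈ sel c, xor (ω (rc rep c l)) (sg c l) = true then 1 else 0

theorem core (hTUP : TUPStmt) [Fintype Λ] {q : ℕ} (rep : Fin q → Λ → Λ) (sg : Fin q → Λ → Bool)
    (sel : Fin q → Finset Λ) (hss : ∀ c l l', l ∈ sel c → l' ∈ sel c → l = l') (T : ℝ)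
    (hT : (((Finset.univ.filter fun c => (sel c).Nonempty).card : ℕ) : ℝ) ≤ T) (L : ℕ)
    (hL : 1 ≤ L) :
    pr {ω : Fin q × Λ → Bool | ¬ ((((Finset.univ.filter fun c =>
      ∃ l ∈ sel c, xor (ω (rc rep c l)) (sg c l) = true).card : ℕ) : ℝ) ≤
        (1 + 1 / (L : ℝ)) * (T / 2) + (L : ℝ) ^ 3)} ≤ Real.exp (-((L : ℝ) ^ 2)) := by
  have hLr : (1 : ℝ) ≤ L := by exact_mod_cast hL
  have hL0 : (0 : ℝ) < L := by linarith
  have h := hTUP (Fin q × Λ) Bool (Fin q) Finset.univ (fC rep sg sel)
    (fun c => (sel c).image (rc rep c)) 1 (1 / L) ((L : ℝ) ^ 3) (T / 2) one_pos (by positivity)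
    (by rw [div_le_one hL0]; exact hLr)
    (fun c _ ω => by
      unfold fC
      split_ifs <;> norm_num)
    (fun c _ ω ω' hag => by
      unfold fC
      congr 1
      refine propext ⟨?_, ?_⟩
      · rintro ⟨l, hl, h⟩
        exact ⟨l, hl, by rw [← hag _ (Finset.mem_image_of_mem _ hl)]; exact h⟩
      · rintro ⟨l, hl, h⟩
        exact ⟨l, hl, by rw [hag _ (Finset.mem_image_of_mem _ hl)]; exact h⟩)
    (fun c _ d _ hcd => by
      rw [Finset.disjoint_left]
      intro u hu hu'
      rw [Finset.mem_image] at hu hu'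
      obtain ⟨l, _, rfl⟩ := hu
      obtain ⟨l', _, h'⟩ := hu'
      exact hcd (congrArg Prod.fst h').symm)
    (by
      have h1 : ∀ c : Fin q, ex (fC rep sg sel c) ≤ if (sel c).Nonempty then (1 / 2 : ℝ) else 0 := by
        intro c
        by_cases hc : (sel c).Nonempty
        · rw [if_pos hc]
          obtain ⟨l, hl⟩ := hc
          have h2 : fC rep sg sel c = fun ω : Fin q × Λ → Bool =>
              if xor (ω (rc rep c l)) (sg c l) = true then (1 : ℝ) else 0 := by
            funext ω
            unfold fC
            congr 1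
            refine propext ⟨?_, fun h => ⟨l, hl, h⟩⟩
            rintro ⟨l', hl', h⟩
            rw [hss c l l' hl hl']
            exact h
          rw [h2, ex_coin]
        · rw [if_neg hc]
          rw [Finset.not_nonempty_iff_eq_empty] at hc
          unfold ex
          apply le_of_eq
          rw [Finset.sum_eq_zero, zero_div]
          intro ω _
          unfold fC
          rw [if_neg]
          rintro ⟨l, hl, _⟩
          rw [hc] at hl
          exact absurd hl (Finset.notMem_empty _)
      refine (Finset.sum_le_sum fun c _ => h1 c).trans ?_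
      rw [← Finset.sum_filter, Finset.sum_const, nsmul_eq_mul]
      linarith)
  refine (pr_mono ?_).trans (h.trans (le_of_eq ?_))
  · intro ω hω
    rw [Set.mem_ofPred_eq] at hω ⊢
    rw [not_le] at hω
    refine le_trans hω.le (le_of_eq ?_)
    unfold fC
    rw [← Finset.sum_filter, Finset.sum_const, nsmul_eq_mul, mul_one]
  · congr 1
    field_simp

theorem cn5 (hTUP : TUPStmt) : CN5Stmt := by
  intro k L q D δ η r T Rr ζ P P' hp α β _ _ E R R' X Y M rep sg hpre
  have hL1 : 1 ≤ L := by have := hp.L4; omega
  constructor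
  · intro x
    right
    have hev : ∀ ω : Fin q × (α × β) → Bool, ∀ c, x ∈ dom (cu M rep sg ω c) ↔
        ∃ l ∈ (M c).filter (fun l => l.1 = x), xor (ω (rc rep c l)) (sg c l) = true := by
      intro ω c
      simp only [mem_dom, cu, cut, Finset.mem_filter]
      constructor
      · rintro ⟨y, h1, h2⟩
        exact ⟨(x, y), ⟨h1, rfl⟩, h2⟩
      · rintro ⟨l, ⟨h1, h2⟩, h3⟩
        exact ⟨l.2, by rw [← h2]; exact ⟨h1, h3⟩⟩
    refine ⟨Lnk_single _ _, ⟨Finset.univ.biUnion fun c =>
      ((M c).filter fun l => l.1 = x).image (rc rep c), ?_, ?_⟩, ?_⟩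
    · intro ω ω' hag hω
      rw [Set.mem_ofPred_eq] at hω ⊢
      have he : (Finset.univ.filter fun c => x ∈ dom (cu M rep sg ω c)) =
          Finset.univ.filter fun c => x ∈ dom (cu M rep sg ω' c) := by
        refine Finset.filter_congr fun c _ => ?_
        rw [hev, hev]
        have hcoord : ∀ l ∈ (M c).filter (fun l => l.1 = x),
            ω (rc rep c l) = ω' (rc rep c l) := by
          intro l hl
          exact hag _ (Finset.mem_biUnion.2 ⟨c, Finset.mem_univ _, Finset.mem_image_of_mem _ hl⟩)
        constructor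
        · rintro ⟨l, hl, h⟩
          exact ⟨l, hl, by rw [← hcoord l hl]; exact h⟩
        · rintro ⟨l, hl, h⟩
          exact ⟨l, hl, by rw [hcoord l hl]; exact h⟩
      rw [← he]
      exact hω
    · intro u hu
      rw [Finset.mem_biUnion] at hu
      obtain ⟨c, _, hu⟩ := hu
      rw [Finset.mem_image] at hu
      obtain ⟨l, hl, rfl⟩ := hu
      rw [Finset.mem_filter] at hl
      refine ⟨Sum.inl x, ?_, Sum.inl x, Finset.mem_singleton_self _, nr3_refl _ _⟩
      rw [locC, Finset.mem_biUnion]
      refine ⟨l, Finset.mem_filter.2 ⟨hl.1, rfl⟩, ?_⟩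
      rw [← hl.2]
      simp
    · have h := core hTUP rep sg (fun c => (M c).filter fun l => l.1 = x) (by
        intro c l l' hl hl'
        simp only [Finset.mem_filter] at hl hl'
        obtain ⟨l1, l2⟩ := l
        obtain ⟨l1', l2'⟩ := l'
        obtain ⟨h1, rfl⟩ := hl
        obtain ⟨h1', h2'⟩ := hl'
        simp only at h2'
        subst h2'
        rw [(hpre.mp c).1 _ _ _ h1 h1']) T (by
        refine le_trans ?_ (hpre.tx x)
        have hs : (Finset.univ.filter fun c => ((M c).filter fun l => l.1 = x).Nonempty) ⊆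
            Finset.univ.filter fun c => x ∈ X c := by
          intro c hc
          simp only [Finset.mem_filter, Finset.mem_univ, true_and] at hc ⊢
          obtain ⟨l, hl⟩ := hc
          rw [Finset.mem_filter] at hl
          rw [← hl.2]
          exact (hpre.mR c l hl.1).2.1
        exact_mod_cast Finset.card_le_card hs) L hL1
      refine le_trans (le_of_eq ?_) (h.trans (le_of_eq ?_))
      · congr 1
        ext ω
        rw [Set.mem_ofPred_eq, Set.mem_ofPred_eq]
        simp only [hev]
      · simp
  · intro y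
    right
    have hev : ∀ ω : Fin q × (α × β) → Bool, ∀ c, y ∈ ran (cu M rep sg ω c) ↔
        ∃ l ∈ (M c).filter (fun l => l.2 = y), xor (ω (rc rep c l)) (sg c l) = true := by
      intro ω c
      simp only [mem_ran, cu, cut, Finset.mem_filter]
      constructor
      · rintro ⟨x, h1, h2⟩
        exact ⟨(x, y), ⟨h1, rfl⟩, h2⟩
      · rintro ⟨l, ⟨h1, h2⟩, h3⟩
        exact ⟨l.1, by rw [← h2]; exact ⟨h1, h3⟩⟩
    refine ⟨Lnk_single _ _, ⟨Finset.univ.biUnion fun c =>
      ((M c).filter fun l => l.2 = y).image (rc rep c), ?_, ?_⟩, ?_⟩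
    · intro ω ω' hag hω
      rw [Set.mem_ofPred_eq] at hω ⊢
      have he : (Finset.univ.filter fun c => y ∈ ran (cu M rep sg ω c)) =
          Finset.univ.filter fun c => y ∈ ran (cu M rep sg ω' c) := by
        refine Finset.filter_congr fun c _ => ?_
        rw [hev, hev]
        have hcoord : ∀ l ∈ (M c).filter (fun l => l.2 = y),
            ω (rc rep c l) = ω' (rc rep c l) := by
          intro l hl
          exact hag _ (Finset.mem_biUnion.2 ⟨c, Finset.mem_univ _, Finset.mem_image_of_mem _ hl⟩)
        constructor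
        · rintro ⟨l, hl, h⟩
          exact ⟨l, hl, by rw [← hcoord l hl]; exact h⟩
        · rintro ⟨l, hl, h⟩
          exact ⟨l, hl, by rw [hcoord l hl]; exact h⟩
      rw [← he]
      exact hω
    · intro u hu
      rw [Finset.mem_biUnion] at hu
      obtain ⟨c, _, hu⟩ := hu
      rw [Finset.mem_image] at hu
      obtain ⟨l, hl, rfl⟩ := hu
      rw [Finset.mem_filter] at hl
      refine ⟨Sum.inr y, ?_, Sum.inr y, Finset.mem_singleton_self _, nr3_refl _ _⟩
      rw [locC, Finset.mem_biUnion]
      refine ⟨l, Finset.mem_filter.2 ⟨hl.1, rfl⟩, ?_⟩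
      rw [← hl.2]
      simp
    · have h := core hTUP rep sg (fun c => (M c).filter fun l => l.2 = y) (by
        intro c l l' hl hl'
        simp only [Finset.mem_filter] at hl hl'
        obtain ⟨l1, l2⟩ := l
        obtain ⟨l1', l2'⟩ := l'
        obtain ⟨h1, rfl⟩ := hl
        obtain ⟨h1', h2'⟩ := hl'
        simp only at h2'
        subst h2'
        rw [(hpre.mp c).2 _ _ _ h1 h1']) T (by
        refine le_trans ?_ (hpre.ty y)
        have hs : (Finset.univ.filter fun c => ((M c).filter fun l => l.2 = y).Nonempty) ⊆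
            Finset.univ.filter fun c => y ∈ Y c := by
          intro c hc
          simp only [Finset.mem_filter, Finset.mem_univ, true_and] at hc ⊢
          obtain ⟨l, hl⟩ := hc
          rw [Finset.mem_filter] at hl
          rw [← hl.2]
          exact (hpre.mR c l hl.1).2.2
        exact_mod_cast Finset.card_le_card hs) L hL1
      refine le_trans (le_of_eq ?_) (h.trans (le_of_eq ?_))
      · congr 1
        ext ω
        rw [Set.mem_ofPred_eq, Set.mem_ofPred_eq]
        simp only [hev]
      · simp

end Pool.Agent.LAP.H39
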