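import Mathlib
import Pool.Agent.Helper23_LAP.Stmts
import Pool.Agent.Helper23_LAP.Basic

/-!
# LAP, module LB2: event (M2)
-/

set_option autoImplicit false

namespace Pool.Agent.LAP.H39

open scoped Classical

theorem lb2 (hTHU : THUStmt) : LB2Stmt := by
  intro k L q D δ η r T Rr ζ P P' hp α β _ _ E R X Y slot hcl c Q hQ
  right
  have hL0 : (0 : ℝ) < L := by
    have := hp.L4
    have : 0 < L := by omega
    exact_mod_cast this
  have hD : (0 : ℝ) < D := lt_of_lt_of_le (by positivity) hp.D1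
  have hL5 : (0 : ℝ) < (L : ℝ) ^ 5 := by positivity
  have hP : 0 < P := by
    rcases Nat.eq_zero_or_pos P with h | h
    · exfalso
      have := hp.P2
      rw [h] at this
      simp at this
      linarith
    · exact h
  have hPr : (0 : ℝ) < P := by exact_mod_cast hP
  have : Nonempty (Fin P) := ⟨⟨0, hP⟩⟩
  have ht : 1 ≤ L ^ 2 := Nat.one_le_pow _ _ (by have := hp.L4; omega)
  set C := crs R (X c) (Y c) (clA E (L ^ 2) Q) (clB E (L ^ 2) Q) with hC
  refine ⟨hQ, ⟨C, ?_, ?_⟩, ?_⟩
  · intro ω ω' hag hω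
    rw [Set.mem_ofPred_eq] at hω ⊢
    have he : C ∩ smO R X Y slot ω c = C ∩ smO R X Y slot ω' c := by
      ext a
      simp only [Finset.mem_inter, smO, Finset.mem_filter]
      constructor
      · rintro ⟨h1, h2, h3, h4⟩
        exact ⟨h1, h2, h3, by rw [← hag a h1]; exact h4⟩
      · rintro ⟨h1, h2, h3, h4⟩
        exact ⟨h1, h2, h3, by rw [hag a h1]; exact h4⟩
    rw [← he]
    exact hω
  · intro a ha
    have haR := (crs_sub _ _ _ _ _ ha).1
    have haE : a ∈ E := (hcl c).sub haR
    obtain ⟨z, hz, hz'⟩ := (crs_near (hcl c).sub ht ha).1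
    exact ⟨Sum.inl a.1, by rw [locM, if_pos haE]; simp, z, hz, hz'⟩
  · have h := hTHU (α × β) (Fin P) C (fun _ => 1) (fun a => {slot c a}) 1 1
      ((L : ℝ) ^ 2 * Q.card) ((C.card : ℝ) / P) one_pos zero_le_one le_rfl
      (fun u _ => ⟨zero_le_one, le_rfl⟩) (by
        simp only [Finset.card_singleton, Fintype.card_fin, one_mul, Nat.cast_one,
          Finset.sum_const, nsmul_eq_mul]
        apply le_of_eq
        ring)
    refine (pr_mono ?_).trans (h.trans (le_of_eq (by congr 2; ring)))
    intro ω hω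
    rw [Set.mem_ofPred_eq] at hω ⊢
    rw [not_le] at hω
    have hcard : ((C ∩ smO R X Y slot ω c).card : ℝ) =
        ∑ a ∈ C, if ω a ∈ ({slot c a} : Finset (Fin P)) then (1 : ℝ) else 0 := by
      rw [← Finset.sum_filter, Finset.sum_const, nsmul_eq_mul, mul_one]
      congr 2
      ext a
      simp only [Finset.mem_inter, smO, Finset.mem_filter, Finset.mem_singleton]
      constructor
      · rintro ⟨h1, h2, h3, h4⟩
        exact ⟨h1, h4⟩
      · rintro ⟨h1, h4⟩
        have := crs_sub _ _ _ _ _ h1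
        exact ⟨h1, this.1, this.2, h4⟩
    refine le_trans (le_trans ?_ hω.le) (le_of_eq (hcard.trans ?_))
    swap
    · refine Finset.sum_congr rfl fun a _ => ?_
      congr
    have h2 : (C.card : ℝ) / P ≤ 2 * (L : ℝ) ^ 5 / D * C.card := by
      rw [div_le_iff₀ hPr]
      have h3 : (1 : ℝ) ≤ 2 * (L : ℝ) ^ 5 / D * P := by
        rw [div_mul_eq_mul_div, le_div_iff₀ hD]
        have := hp.P2
        linarith
      calc (C.card : ℝ) = C.card * 1 := by ring
        _ ≤ C.card * (2 * (L : ℝ) ^ 5 / D * P) := by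
            exact mul_le_mul_of_nonneg_left h3 (by positivity)
        _ = _ := by ring
    have h4 : cq E R (X c) (Y c) L Q = C.card := rfl
    rw [h4]
    have h5 : 4 * (L : ℝ) ^ 5 / D * C.card = 2 * (2 * (L : ℝ) ^ 5 / D * C.card) := by ring
    rw [h5]
    linarith

end Pool.Agent.LAP.H39
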